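import Pool.Agent.Helper578.JD.Core

/-!
# Reachability in a c.e. relation is c.e.; a universal `Σ⁰₃` equivalence relation
-/

open Encodable

namespace Pool.Agent.Q316.Var

open Pool.Agent.Helper578.JD Pool.Agent.Helper578.JD.Oracle Pool.Agent.Helper578.JD.Defs

theorem reach_iff {r : ℕ → ℕ → Prop} {u v : ℕ} : Relation.ReflTransGen r u v ↔
    ∃ (l : List ℕ) (m : ℕ), l[0]? = some u ∧ l[m]? = some v ∧
      ∀ i < m, ∃ x y, l[i]? = some x ∧ l[i + 1]? = some y ∧ r x y := by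
  constructor
  · intro h
    induction h with
    | refl => exact ⟨[u], 0, by simp, by simp, by simp⟩
    | @tail b c _ hbc ih =>
      obtain ⟨l, m, h0, hm, h⟩ := ih
      have hml : m < l.length := (List.getElem?_eq_some_iff.1 hm).1
      have hlen : (l.take (m + 1)).length = m + 1 := by simp; omega
      have key : ∀ i ≤ m, (l.take (m + 1) ++ [c])[i]? = l[i]? := by
        intro i hi
        rw [List.getElem?_append_left (by omega), List.getElem?_take_of_lt (by omega)]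
      refine ⟨l.take (m + 1) ++ [c], m + 1, ?_, ?_, ?_⟩
      · rw [key 0 (Nat.zero_le _)]; exact h0
      · rw [List.getElem?_append_right (by omega), hlen]; simp
      · intro i hi
        rcases Nat.lt_succ_iff_lt_or_eq.1 hi with hi | rfl
        · obtain ⟨x, y, h1, h2, h3⟩ := h i hi
          refine ⟨x, y, ?_, ?_, h3⟩
          · rw [key i hi.le]; exact h1
          · rw [key (i + 1) hi]; exact h2
        · refine ⟨b, c, ?_, ?_, hbc⟩
          · rw [key i le_rfl]; exact hm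
          · rw [List.getElem?_append_right (by omega), hlen]; simp
  · rintro ⟨l, m, h0, hm, h⟩
    have key : ∀ i ≤ m, ∀ w, l[i]? = some w → Relation.ReflTransGen r u w := by
      intro i
      induction i with
      | zero =>
        intro _ w hw
        rw [h0] at hw
        rw [Option.some.inj hw]
      | succ i ih =>
        intro hi w hw
        obtain ⟨x, y, h1, h2, h3⟩ := h i (by omega)
        rw [h2] at hw
        rw [← Option.some.inj hw]
        exact (ih (by omega) x h1).tail h3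
    exact key m le_rfl v hm

theorem re_reach {α : Type*} [Primcodable α] {r : α → ℕ → ℕ → Prop}
    (hr : REPred fun x : α × ℕ × ℕ => r x.1 x.2.1 x.2.2) :
    REPred fun x : α × ℕ × ℕ => Relation.ReflTransGen (r x.1) x.2.1 x.2.2 := by
  have h : REPred fun x : α × ℕ × ℕ => ∃ (l : List ℕ) (m : ℕ), l[0]? = some x.2.1 ∧
      l[m]? = some x.2.2 ∧ ∀ i < m, ∃ a b, l[i]? = some a ∧ l[i + 1]? = some b ∧ r x.1 a b := by
    refine RE.ex (p := fun (x : α × ℕ × ℕ) (l : List ℕ) => ∃ m : ℕ, l[0]? = some x.2.1 ∧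
      l[m]? = some x.2.2 ∧ ∀ i < m, ∃ a b, l[i]? = some a ∧ l[i + 1]? = some b ∧ r x.1 a b) ?_
    refine RE.ex (p := fun (x : (α × ℕ × ℕ) × List ℕ) (m : ℕ) => x.2[0]? = some x.1.2.1 ∧
      x.2[m]? = some x.1.2.2 ∧ ∀ i < m, ∃ a b, x.2[i]? = some a ∧ x.2[i + 1]? = some b ∧
      r x.1.1 a b) ?_
    refine RE.and (RE.eq (by fun_prop) (by fun_prop)) (RE.and (RE.eq (by fun_prop)
      (by fun_prop)) ?_)
    refine RE.all_lt (p := fun (x : ((α × ℕ × ℕ) × List ℕ) × ℕ) (i : ℕ) =>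
      ∃ a b, x.1.2[i]? = some a ∧ x.1.2[i + 1]? = some b ∧ r x.1.1.1 a b) ?_
      (f := fun x => x.2) (by fun_prop)
    refine RE.ex (p := fun (x : (((α × ℕ × ℕ) × List ℕ) × ℕ) × ℕ) (a : ℕ) =>
      ∃ b, x.1.1.2[x.2]? = some a ∧ x.1.1.2[x.2 + 1]? = some b ∧ r x.1.1.1.1 a b) ?_
    refine RE.ex (p := fun (x : ((((α × ℕ × ℕ) × List ℕ) × ℕ) × ℕ) × ℕ) (b : ℕ) =>
      x.1.1.1.2[x.1.2]? = some x.2 ∧ x.1.1.1.2[x.1.2 + 1]? = some b ∧ r x.1.1.1.1.1 x.2 b) ?_
    refine RE.and (RE.eq (by fun_prop) (by fun_prop)) (RE.and (RE.eq (by fun_prop)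
      (by fun_prop)) ?_)
    exact RE.comp hr (f := fun x : (((((α × ℕ × ℕ) × List ℕ) × ℕ) × ℕ) × ℕ) × ℕ =>
      (x.1.1.1.1.1.1, x.1.2, x.2)) (by fun_prop)
  exact h.of_eq fun x => reach_iff.symm

end Pool.Agent.Q316.Var
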