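import Pool.Agent.Q316.Var.Path

/-!
# `Σ⁰₃` equivalence relations: a universal one, and one not below `=^ce`
-/

open Encodable

namespace Pool.Agent.Q316.Var

open Pool.Agent.Helper578.JD Pool.Agent.Helper578.JD.Oracle Pool.Agent.Helper578.JD.Defs

/-- computable reducibility -/
def Le (E F : ℕ → ℕ → Prop) : Prop :=
  ∃ f : ℕ → ℕ, Computable f ∧ ∀ x y, E x y ↔ F (f x) (f y)

theorem Le.trans {E F G : ℕ → ℕ → Prop} (h1 : Le E F) (h2 : Le F G) : Le E G := by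
  obtain ⟨f, hf, h1⟩ := h1
  obtain ⟨g, hg, h2⟩ := h2
  exact ⟨fun x => g (f x), hg.comp hf, fun x y => (h1 x y).trans (h2 _ _)⟩

/-- `Σ⁰₃` -/
def IsSigma3 (E : ℕ → ℕ → Prop) : Prop :=
  ∃ R : ℕ × ℕ × ℕ × ℕ × ℕ → Bool, Computable R ∧
    ∀ x y, E x y ↔ ∃ a, ∀ b, ∃ c, R (x, y, a, b, c) = true

/-- Equality of c.e. sets. -/
def EqCE (e e' : ℕ) : Prop := ∀ x, W e x ↔ W e' x

theorem sigma3_of_re {E : ℕ → ℕ → Prop} {R : ℕ × ℕ × ℕ × ℕ → Prop} (hR : REPred R)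
    (h : ∀ x y, E x y ↔ ∃ a, ∀ b, R (x, y, a, b)) : IsSigma3 E := by
  obtain ⟨q, hq, h1⟩ := RE.re_iff.1 hR
  refine ⟨fun p => q (p.1, p.2.1, p.2.2.1, p.2.2.2.1) p.2.2.2.2, ?_, fun x y => ?_⟩
  · exact hq.comp (f := q) (g := fun p : ℕ × ℕ × ℕ × ℕ × ℕ => (p.1, p.2.1, p.2.2.1, p.2.2.2.1))
      (h := fun p : ℕ × ℕ × ℕ × ℕ × ℕ => p.2.2.2.2) (by fun_prop) (by fun_prop)
  · rw [h]
    exact exists_congr fun a => forall_congr' fun b => h1 _

theorem sigma3_of_re' {E : ℕ → ℕ → Prop} {T S : Type*} [Primcodable T]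
    [Primcodable S] {R : ℕ × ℕ × T × S → Prop} (hR : REPred R)
    (h : ∀ x y, E x y ↔ ∃ a, ∀ b, R (x, y, a, b)) : IsSigma3 E := by
  have hR' : REPred fun p : ℕ × ℕ × ℕ × ℕ => ∃ a : T, encode a = p.2.2.1 ∧
      (∀ b : S, decode p.2.2.2 = some b → R (p.1, p.2.1, a, b)) := by
    refine RE.ex (p := fun (p : ℕ × ℕ × ℕ × ℕ) (a : T) => encode a = p.2.2.1 ∧
      (∀ b : S, decode p.2.2.2 = some b → R (p.1, p.2.1, a, b))) ?_
    refine RE.and (RE.eq (by fun_prop) (by fun_prop)) ?_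
    have h2 : REPred fun p : (ℕ × ℕ × ℕ × ℕ) × T => (decode p.1.2.2.2 : Option S) = none ∨
        ∃ b : S, decode p.1.2.2.2 = some b ∧ R (p.1.1, p.1.2.1, p.2, b) := by
      refine RE.or (RE.eq (by fun_prop) (by fun_prop)) ?_
      refine RE.ex (p := fun (p : (ℕ × ℕ × ℕ × ℕ) × T) (b : S) =>
        decode p.1.2.2.2 = some b ∧ R (p.1.1, p.1.2.1, p.2, b)) ?_
      exact RE.and (RE.eq (by fun_prop) (by fun_prop)) (RE.comp hR
        (f := fun p : ((ℕ × ℕ × ℕ × ℕ) × T) × S => (p.1.1.1, p.1.1.2.1, p.1.2, p.2))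
        (by fun_prop))
    refine h2.of_eq fun p => ?_
    constructor
    · rintro (h3 | ⟨b, h3, h4⟩) b' hb'
      · rw [h3] at hb'; simp at hb'
      · rw [h3] at hb'; rw [← Option.some.inj hb']; exact h4
    · intro h3
      cases hd : (decode p.1.2.2.2 : Option S) with
      | none => exact Or.inl rfl
      | some b => exact Or.inr ⟨b, rfl, h3 b hd⟩
  refine sigma3_of_re hR' fun x y => ?_
  rw [h]
  constructor
  · rintro ⟨a, ha⟩
    exact ⟨encode a, fun b => ⟨a, rfl, fun b' _ => ha b'⟩⟩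
  · rintro ⟨n, hn⟩
    obtain ⟨a, ha, -⟩ := hn 0
    refine ⟨a, fun b => ?_⟩
    obtain ⟨a', ha', hb⟩ := hn (encode b)
    have : a' = a := encode_injective (ha'.trans ha.symm)
    subst this
    exact hb b (encodek b)

/-- uniform approximation of the c.e. sets -/
theorem exists_q : ∃ q : ℕ × ℕ → ℕ → Bool, Computable₂ q ∧
    ∀ e x, W e x ↔ ∃ s, q (e, x) s = true := by
  obtain ⟨q, hq, h⟩ := RE.re_iff.1 W_re
  exact ⟨q, hq, fun e x => h (e, x)⟩

theorem eqCE_pi2 : ∃ R : ℕ × ℕ × (ℕ × ℕ) → Prop, REPred R ∧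
    ∀ x y, EqCE x y ↔ ∀ b, R (x, y, b) := by
  obtain ⟨q, hq, h⟩ := exists_q
  refine ⟨fun p => (q (p.1, p.2.2.1) p.2.2.2 = false ∨ W p.2.1 p.2.2.1) ∧
    (q (p.2.1, p.2.2.1) p.2.2.2 = false ∨ W p.1 p.2.2.1), ?_, fun x y => ?_⟩
  · refine RE.and (RE.or (RE.eq ?_ (by fun_prop)) ?_) (RE.or (RE.eq ?_ (by fun_prop)) ?_)
    · exact hq.comp (f := q) (g := fun p : ℕ × ℕ × (ℕ × ℕ) => (p.1, p.2.2.1))
        (h := fun p : ℕ × ℕ × (ℕ × ℕ) => p.2.2.2) (by fun_prop) (by fun_prop)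
    · exact RE.comp W_re (f := fun p : ℕ × ℕ × (ℕ × ℕ) => (p.2.1, p.2.2.1)) (by fun_prop)
    · exact hq.comp (f := q) (g := fun p : ℕ × ℕ × (ℕ × ℕ) => (p.2.1, p.2.2.1))
        (h := fun p : ℕ × ℕ × (ℕ × ℕ) => p.2.2.2) (by fun_prop) (by fun_prop)
    · exact RE.comp W_re (f := fun p : ℕ × ℕ × (ℕ × ℕ) => (p.1, p.2.2.1)) (by fun_prop)
  · constructor
    · rintro hxy ⟨z, s⟩
      simp only
      constructor
      · by_cases h1 : q (x, z) s = true
        · exact Or.inr ((hxy z).1 ((h x z).2 ⟨s, h1⟩))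
        · exact Or.inl (by simpa using h1)
      · by_cases h1 : q (y, z) s = true
        · exact Or.inr ((hxy z).2 ((h y z).2 ⟨s, h1⟩))
        · exact Or.inl (by simpa using h1)
    · intro hxy z
      constructor
      · intro hz
        obtain ⟨s, hs⟩ := (h x z).1 hz
        rcases (hxy (z, s)).1 with h1 | h1
        · simp only at h1; rw [hs] at h1; simp at h1
        · exact h1
      · intro hz
        obtain ⟨s, hs⟩ := (h y z).1 hz
        rcases (hxy (z, s)).2 with h1 | h1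
        · simp only at h1; rw [hs] at h1; simp at h1
        · exact h1

theorem eqCE_sigma3 : IsSigma3 EqCE := by
  obtain ⟨R, hR, h⟩ := eqCE_pi2
  refine sigma3_of_re' (T := ℕ) (S := ℕ × ℕ) (R := fun p => R (p.1, p.2.1, p.2.2.2)) ?_ ?_
  · exact RE.comp hR (f := fun p : ℕ × ℕ × ℕ × (ℕ × ℕ) => (p.1, p.2.1, p.2.2.2)) (by fun_prop)
  · intro x y
    rw [h]
    simp

theorem IsSigma3.of_le {E F : ℕ → ℕ → Prop} (h : Le E F) (hF : IsSigma3 F) : IsSigma3 E := by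
  obtain ⟨f, hf, h⟩ := h
  obtain ⟨R, hR, h1⟩ := hF
  refine ⟨fun p => R (f p.1, f p.2.1, p.2.2), ?_, fun x y => ?_⟩
  · exact hR.comp (f := R) (g := fun p : ℕ × ℕ × ℕ × ℕ × ℕ => (f p.1, f p.2.1, p.2.2))
      ((hf.comp Computable.fst).pair ((hf.comp (Computable.fst.comp Computable.snd)).pair
        (Computable.snd.comp Computable.snd)))
  · rw [h, h1]

theorem eqCE_equivalence : Equivalence EqCE :=
  ⟨fun _ _ => Iff.rfl, fun h x => (h x).symm, fun h1 h2 x => (h1 x).trans (h2 x)⟩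

/-- There is a `Σ⁰₃` equivalence relation not reducible to `=^ce`. -/
theorem exists_not_le : ∃ F : ℕ → ℕ → Prop, Equivalence F ∧ IsSigma3 F ∧ ¬ Le F EqCE := by
  obtain ⟨q, hq, h⟩ := exists_q
  let A : Set ℕ := {e | ¬ ∀ a, W e (Nat.pair e a)}
  let F : ℕ → ℕ → Prop := fun x y => x = y ∨ (x ∈ A ∧ y ∈ A)
  refine ⟨F, ⟨fun x => Or.inl rfl, ?_, ?_⟩, ?_, ?_⟩
  · rintro x y (h1 | ⟨h1, h2⟩)
    · exact Or.inl h1.symm
    · exact Or.inr ⟨h2, h1⟩
  · rintro x y z (rfl | ⟨h1, h2⟩) h3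
    · exact h3
    · rcases h3 with rfl | ⟨h3, h4⟩
      · exact Or.inr ⟨h1, h2⟩
      · exact Or.inr ⟨h1, h4⟩
  · refine sigma3_of_re' (T := ℕ × ℕ) (S := ℕ) (R := fun p => p.1 = p.2.1 ∨
      (q (p.1, Nat.pair p.1 p.2.2.1.1) p.2.2.2 = false ∧
        q (p.2.1, Nat.pair p.2.1 p.2.2.1.2) p.2.2.2 = false)) ?_ ?_
    · refine RE.or (RE.eq (by fun_prop) (by fun_prop)) (RE.and (RE.eq ?_ (by fun_prop))
        (RE.eq ?_ (by fun_prop)))
      · exact hq.comp (f := q) (g := fun p : ℕ × ℕ × (ℕ × ℕ) × ℕ =>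
          (p.1, Nat.pair p.1 p.2.2.1.1)) (h := fun p : ℕ × ℕ × (ℕ × ℕ) × ℕ => p.2.2.2)
          (by fun_prop) (by fun_prop)
      · exact hq.comp (f := q) (g := fun p : ℕ × ℕ × (ℕ × ℕ) × ℕ =>
          (p.2.1, Nat.pair p.2.1 p.2.2.1.2)) (h := fun p : ℕ × ℕ × (ℕ × ℕ) × ℕ => p.2.2.2)
          (by fun_prop) (by fun_prop)
    · intro x y
      simp only [F, A, Set.mem_ofPred_eq]
      constructor
      · rintro (rfl | ⟨h1, h2⟩)
        · exact ⟨(0, 0), fun b => Or.inl rfl⟩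
        · push Not at h1 h2
          obtain ⟨a, ha⟩ := h1
          obtain ⟨b, hb⟩ := h2
          rw [h] at ha hb
          push Not at ha hb
          exact ⟨(a, b), fun s => Or.inr ⟨by simpa using ha s, by simpa using hb s⟩⟩
      · rintro ⟨⟨a, b⟩, h1⟩
        by_cases hxy : x = y
        · exact Or.inl hxy
        · right
          constructor
          · intro h2
            obtain ⟨s, hs⟩ := (h _ _).1 (h2 a)
            rcases h1 s with h1 | ⟨h1, -⟩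
            · exact hxy h1
            · simp only at h1; rw [hs] at h1; simp at h1
          · intro h2
            obtain ⟨s, hs⟩ := (h _ _).1 (h2 b)
            rcases h1 s with h1 | ⟨-, h1⟩
            · exact hxy h1
            · simp only at h1; rw [hs] at h1; simp at h1
  · rintro ⟨f, hf, hF⟩
    obtain ⟨a0, ha0⟩ := recursion (β := ℕ) (P := fun _ _ => False) (RE.const False)
    have ha0' : a0 ∈ A := fun h1 => (ha0 (Nat.pair a0 0)).1 (h1 0)
    obtain ⟨R, hR, h1⟩ := eqCE_pi2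
    obtain ⟨e, he⟩ := recursion (β := ℕ × (ℕ × ℕ)) (P := fun _ p => R (f p.1, f a0, p.2))
      (RE.comp hR (f := fun p : ℕ × (ℕ × (ℕ × ℕ)) => (f p.2.1, f a0, p.2.2))
        ((hf.comp (Computable.fst.comp Computable.snd)).pair ((Computable.const _).pair
          (Computable.snd.comp Computable.snd))))
    have key : e ∈ A ↔ ∀ b, W e (Nat.pair e b) := by
      have h2 : e ∈ A ↔ F e a0 := by
        constructor
        · intro h; exact Or.inr ⟨h, ha0'⟩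
        · rintro (h | h)
          · rw [h]; exact ha0'
          · exact h.1
      rw [h2, hF, h1]
      constructor
      · intro h3 b
        exact (he (e, b.unpair)).2 (h3 b.unpair) |> fun h4 => by
          have : encode (e, b.unpair) = Nat.pair e b := by
            have : encode b.unpair = b := by
              show Nat.pair b.unpair.1 b.unpair.2 = b
              exact Nat.pair_unpair b
            show Nat.pair e (encode b.unpair) = Nat.pair e b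
            rw [this]
          rwa [this] at h4
      · rintro h3 ⟨z, s⟩
        exact (he (e, z, s)).1 (h3 (Nat.pair z s))
    have : e ∈ A ↔ ¬ ∀ b, W e (Nat.pair e b) := Iff.rfl
    tauto

/-- `Σ⁰₃`-complete equivalence relations. -/
def Complete (E : ℕ → ℕ → Prop) : Prop :=
  Equivalence E ∧ IsSigma3 E ∧ ∀ F, Equivalence F → IsSigma3 F → Le F E

/-- the step relation of the universal relation -/
def Stp (p q : ℕ) : Prop := p.unpair.1 = q.unpair.1 ∧ ∃ w : ℕ × ℕ, ∀ b,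
  (w.1 = 0 ∧ W p.unpair.1 (Nat.pair (Nat.pair p.unpair.2 q.unpair.2) (Nat.pair w.2 b))) ∨
  (w.1 ≠ 0 ∧ W p.unpair.1 (Nat.pair (Nat.pair q.unpair.2 p.unpair.2) (Nat.pair w.2 b)))

theorem Stp.symm {p q : ℕ} (h : Stp p q) : Stp q p := by
  obtain ⟨h1, w, hw⟩ := h
  refine ⟨h1.symm, (if w.1 = 0 then 1 else 0, w.2), fun b => ?_⟩
  rcases hw b with ⟨h2, h3⟩ | ⟨h2, h3⟩
  · right; simp only [h2, if_true]; exact ⟨one_ne_zero, by rw [← h1]; exact h3⟩
  · left; simp only [h2, if_false]; exact ⟨trivial, by rw [← h1]; exact h3⟩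

theorem exists_complete : ∃ E, Complete E := by
  refine ⟨Relation.ReflTransGen Stp, ⟨fun _ => .refl,
    fun h => (@Relation.ReflTransGen.stdSymm _ Stp ⟨fun _ _ h => h.symm⟩).symm _ _ h,
    fun h1 h2 => h1.trans h2⟩, ?_, ?_⟩
  · refine sigma3_of_re' (T := List ℕ × ℕ × List (ℕ × ℕ)) (S := ℕ × ℕ) (R := fun p =>
      p.2.2.1.1[0]? = some p.1 ∧ p.2.2.1.1[p.2.2.1.2.1]? = some p.2.1 ∧
      (p.2.2.1.2.1 ≤ p.2.2.2.1 ∨ ∃ u v : ℕ, ∃ w : ℕ × ℕ, p.2.2.1.1[p.2.2.2.1]? = some u ∧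
        p.2.2.1.1[p.2.2.2.1 + 1]? = some v ∧ p.2.2.1.2.2[p.2.2.2.1]? = some w ∧
        u.unpair.1 = v.unpair.1 ∧
        ((w.1 = 0 ∧ W u.unpair.1 (Nat.pair (Nat.pair u.unpair.2 v.unpair.2)
          (Nat.pair w.2 p.2.2.2.2))) ∨
        (w.1 ≠ 0 ∧ W u.unpair.1 (Nat.pair (Nat.pair v.unpair.2 u.unpair.2)
          (Nat.pair w.2 p.2.2.2.2)))))) ?_ ?_
    · refine RE.and (RE.eq (by fun_prop) (by fun_prop)) (RE.and (RE.eq (by fun_prop)
        (by fun_prop)) (RE.or (RE.le (by fun_prop) (by fun_prop)) ?_))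
      refine RE.ex (p := fun (p : ℕ × ℕ × (List ℕ × ℕ × List (ℕ × ℕ)) × (ℕ × ℕ)) (u : ℕ) =>
        ∃ v : ℕ, ∃ w : ℕ × ℕ, p.2.2.1.1[p.2.2.2.1]? = some u ∧
        p.2.2.1.1[p.2.2.2.1 + 1]? = some v ∧ p.2.2.1.2.2[p.2.2.2.1]? = some w ∧
        u.unpair.1 = v.unpair.1 ∧
        ((w.1 = 0 ∧ W u.unpair.1 (Nat.pair (Nat.pair u.unpair.2 v.unpair.2)
          (Nat.pair w.2 p.2.2.2.2))) ∨
        (w.1 ≠ 0 ∧ W u.unpair.1 (Nat.pair (Nat.pair v.unpair.2 u.unpair.2)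
          (Nat.pair w.2 p.2.2.2.2))))) ?_
      refine RE.ex (p := fun (z : (ℕ × ℕ × (List ℕ × ℕ × List (ℕ × ℕ)) × (ℕ × ℕ)) × ℕ) (v : ℕ) =>
        ∃ w : ℕ × ℕ, z.1.2.2.1.1[z.1.2.2.2.1]? = some z.2 ∧
        z.1.2.2.1.1[z.1.2.2.2.1 + 1]? = some v ∧ z.1.2.2.1.2.2[z.1.2.2.2.1]? = some w ∧
        z.2.unpair.1 = v.unpair.1 ∧
        ((w.1 = 0 ∧ W z.2.unpair.1 (Nat.pair (Nat.pair z.2.unpair.2 v.unpair.2)
          (Nat.pair w.2 z.1.2.2.2.2))) ∨
        (w.1 ≠ 0 ∧ W z.2.unpair.1 (Nat.pair (Nat.pair v.unpair.2 z.2.unpair.2)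
          (Nat.pair w.2 z.1.2.2.2.2))))) ?_
      refine RE.ex (p := fun (z : ((ℕ × ℕ × (List ℕ × ℕ × List (ℕ × ℕ)) × (ℕ × ℕ)) × ℕ) × ℕ)
        (w : ℕ × ℕ) => z.1.1.2.2.1.1[z.1.1.2.2.2.1]? = some z.1.2 ∧
        z.1.1.2.2.1.1[z.1.1.2.2.2.1 + 1]? = some z.2 ∧
        z.1.1.2.2.1.2.2[z.1.1.2.2.2.1]? = some w ∧ z.1.2.unpair.1 = z.2.unpair.1 ∧
        ((w.1 = 0 ∧ W z.1.2.unpair.1 (Nat.pair (Nat.pair z.1.2.unpair.2 z.2.unpair.2)
          (Nat.pair w.2 z.1.1.2.2.2.2))) ∨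
        (w.1 ≠ 0 ∧ W z.1.2.unpair.1 (Nat.pair (Nat.pair z.2.unpair.2 z.1.2.unpair.2)
          (Nat.pair w.2 z.1.1.2.2.2.2))))) ?_
      refine RE.and (RE.eq (by fun_prop) (by fun_prop)) (RE.and (RE.eq (by fun_prop)
        (by fun_prop)) (RE.and (RE.eq (by fun_prop) (by fun_prop)) (RE.and (RE.eq (by fun_prop)
        (by fun_prop)) (RE.or (RE.and (RE.eq (by fun_prop) (by fun_prop)) ?_) (RE.and
        (RE.ne (by fun_prop) (by fun_prop)) ?_)))))
      · exact RE.comp W_re (f := fun z : (((ℕ × ℕ × (List ℕ × ℕ × List (ℕ × ℕ)) × (ℕ × ℕ)) × ℕ) ×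
          ℕ) × (ℕ × ℕ) => (z.1.1.2.unpair.1, Nat.pair (Nat.pair z.1.1.2.unpair.2 z.1.2.unpair.2)
          (Nat.pair z.2.2 z.1.1.1.2.2.2.2))) (by fun_prop)
      · exact RE.comp W_re (f := fun z : (((ℕ × ℕ × (List ℕ × ℕ × List (ℕ × ℕ)) × (ℕ × ℕ)) × ℕ) ×
          ℕ) × (ℕ × ℕ) => (z.1.1.2.unpair.1, Nat.pair (Nat.pair z.1.2.unpair.2 z.1.1.2.unpair.2)
          (Nat.pair z.2.2 z.1.1.1.2.2.2.2))) (by fun_prop)
    · intro x y
      rw [reach_iff]
      constructor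
      · rintro ⟨l, m, h0, hm, h⟩
        have h' : ∀ i : ℕ, ∃ w : ℕ × ℕ, i < m → ∃ u v, l[i]? = some u ∧ l[i + 1]? = some v ∧
            u.unpair.1 = v.unpair.1 ∧ ∀ b,
            ((w.1 = 0 ∧ W u.unpair.1 (Nat.pair (Nat.pair u.unpair.2 v.unpair.2)
              (Nat.pair w.2 b))) ∨
            (w.1 ≠ 0 ∧ W u.unpair.1 (Nat.pair (Nat.pair v.unpair.2 u.unpair.2)
              (Nat.pair w.2 b)))) := by
          intro i
          by_cases hi : i < m
          · obtain ⟨u, v, h1, h2, h3, w, hw⟩ := h i hi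
            exact ⟨w, fun _ => ⟨u, v, h1, h2, h3, hw⟩⟩
          · exact ⟨(0, 0), fun h => absurd h hi⟩
        choose w hw using h'
        refine ⟨(l, m, (List.range m).map w), fun b => ⟨h0, hm, ?_⟩⟩
        by_cases hi : b.1 < m
        · right
          obtain ⟨u, v, h1, h2, h3, h4⟩ := hw b.1 hi
          exact ⟨u, v, w b.1, h1, h2, by simp [hi], h3, h4 b.2⟩
        · left; exact not_lt.1 hi
      · rintro ⟨⟨l, m, ws⟩, h⟩
        refine ⟨l, m, (h (0, 0)).1, (h (0, 0)).2.1, fun i hi => ?_⟩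
        have h1 := fun b => (h (i, b)).2.2
        simp only at h1
        rcases h1 0 with h2 | ⟨u, v, w, h2, h3, h4, h5, -⟩
        · omega
        · refine ⟨u, v, h2, h3, h5, w, fun b => ?_⟩
          rcases h1 b with h6 | ⟨u', v', w', h6, h7, h8, -, h9⟩
          · omega
          · rw [h2] at h6; rw [h3] at h7; rw [h4] at h8
            rw [Option.some.inj h6, Option.some.inj h7, Option.some.inj h8]
            exact h9
  · rintro F hF ⟨R, hR, h⟩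
    have hR' : REPred fun p : (ℕ × ℕ) × (ℕ × ℕ) => ∃ c,
        R (p.1.1, p.1.2, p.2.1, p.2.2, c) = true := by
      refine RE.ex (p := fun (p : (ℕ × ℕ) × (ℕ × ℕ)) (c : ℕ) =>
        R (p.1.1, p.1.2, p.2.1, p.2.2, c) = true) ?_
      refine RE.of_bool (hR.comp (f := R) (g := fun p : ((ℕ × ℕ) × (ℕ × ℕ)) × ℕ =>
        (p.1.1.1, p.1.1.2, p.1.2.1, p.1.2.2, p.2)) (by fun_prop))
    obtain ⟨e, he⟩ := recursion (β := (ℕ × ℕ) × (ℕ × ℕ)) (P := fun _ p => ∃ c,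
        R (p.1.1, p.1.2, p.2.1, p.2.2, c) = true) (RE.comp hR' (f := fun p : ℕ × _ => p.2)
        (by fun_prop))
    have he' : ∀ x y, F x y ↔ ∃ a, ∀ b, W e (Nat.pair (Nat.pair x y) (Nat.pair a b)) := by
      intro x y
      rw [h]
      exact exists_congr fun a => forall_congr' fun b => (he ((x, y), (a, b))).symm
    refine ⟨fun x => Nat.pair e x, by fun_prop, fun x y => ?_⟩
    constructor
    · intro hxy
      obtain ⟨a, ha⟩ := (he' x y).1 hxy
      refine Relation.ReflTransGen.single ⟨by simp, (0, a), fun b => Or.inl ⟨rfl, ?_⟩⟩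
      simpa using ha b
    · intro hxy
      have key : ∀ q, Relation.ReflTransGen Stp (Nat.pair e x) q →
          q.unpair.1 = e ∧ F x q.unpair.2 := by
        intro q hq
        induction hq with
        | refl => simpa using hF.refl x
        | @tail b c _ hbc ih =>
          obtain ⟨h1, w, hw⟩ := hbc
          refine ⟨by rw [← h1]; exact ih.1, hF.trans ih.2 ?_⟩
          rw [ih.1] at hw
          by_cases h2 : w.1 = 0
          · refine (he' _ _).2 ⟨w.2, fun b => ?_⟩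
            rcases hw b with h3 | h3
            · exact h3.2
            · exact absurd h2 h3.1
          · refine hF.symm ((he' _ _).2 ⟨w.2, fun b => ?_⟩)
            rcases hw b with h3 | h3
            · exact absurd h3.1 h2
            · exact h3.2
      simpa using (key _ hxy).2

end Pool.Agent.Q316.Var
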